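import Pool.Agent.Helper43.Hw.Goals

/-! # H7: deaths inside the zone -/

set_option autoImplicit false

namespace Pool.Agent.Helper43.Hw.PkH7

open Finset
open Pool.Agent.Helper43.Gm (st mv nn Run Pri)
open Pool.Agent.Helper43.Hw

theorem sum_sq (l K : ℕ) : ∑ k ∈ range (K + 1), 12 * T (k * l) ≥ l ^ 2 * (K * (K + 1) * (2 * K + 1)) := by
  induction K with
  | zero => simp
  | succ K ih =>
    rw [sum_range_succ]
    have h1 := two_T ((K + 1) * l)
    have h2 : 12 * T ((K + 1) * l) = 6 * ((K + 1) * l * ((K + 1) * l + 1)) := by omega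
    have h3 : 6 * ((K + 1) * l * ((K + 1) * l + 1)) ≥ 6 * ((K + 1) * l * ((K + 1) * l)) := by
      apply Nat.mul_le_mul_left
      apply Nat.mul_le_mul_left
      omega
    have h4 : l ^ 2 * ((K + 1) * (K + 1 + 1) * (2 * (K + 1) + 1)) =
        l ^ 2 * (K * (K + 1) * (2 * K + 1)) + 6 * ((K + 1) * l * ((K + 1) * l)) := by ring
    rw [h4, h2]
    omega

theorem goalH7 (h1 : GoalH1) (h6 : GoalH6) : GoalH7 := by
  intro μ R N l y w κ x hμ hl hlR hR hplay hex hyR hw h14
  have hμR : μ + 2 ≤ R := by omega
  obtain ⟨a1, a2, a3, a4, a5, a6, a7⟩ := h1 μ R N κ x hμ hμR hplay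
  obtain ⟨b1, b2, b3, b4, b5⟩ := h6 μ R N κ x y hμ hμR hplay hex
  have hyR' : y < R := hex.1
  have hwμ : w ≤ μ := by omega
  set J := R - 1 - μ with hJ
  set K := w / l - 2 with hK
  have hdiv : 14 ≤ w / l := (Nat.le_div_iff_mul_le (by omega)).2 (by linarith)
  have hK12 : 12 ≤ K := by omega
  have hwl : w / l = K + 2 := by omega
  have hKl : ∀ k ≤ K, (k + 2) * l ≤ w := by
    intro k hk
    have : (k + 2) * l ≤ (w / l) * l := Nat.mul_le_mul_right l (by omega)
    exact this.trans (Nat.div_mul_le_self w l)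
  have hwlt : w < (K + 3) * l := by
    have := Nat.lt_div_mul_add (a := w) (b := l) (by omega)
    have e : (K + 3) * l = w / l * l + l := by rw [hwl]; ring
    rw [e]; exact this
  -- H6 (d)
  have hstep : ∀ k ≤ K, κ (J - (k + 2) * l) < κ (J - (k + 1) * l) := by
    intro k hk
    have e1 := hKl k hk
    have e2 : (k + 2) * l = (k + 1) * l + l := by ring
    have e3 := b4 l (J - (k + 2) * l) (by omega) (by omega) (by omega) hlR
    have e4 : J - (k + 2) * l + l = J - (k + 1) * l := by omega
    rw [e4] at e3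
    exact e3
  have hstep0 : ∀ k ≤ K, κ (J - (k + 1) * l) < κ (J - k * l) := by
    intro k hk
    have e1 := hKl k hk
    have e2 : (k + 2) * l = k * l + l + l := by ring
    have e2' : (k + 1) * l = k * l + l := by ring
    have e3 := b4 l (J - (k + 1) * l) (by omega) (by omega) (by omega) hlR
    have e4 : J - (k + 1) * l + l = J - k * l := by omega
    rw [e4] at e3
    exact e3
  set f : ℕ → ℕ := fun k => κ (J - (k + 1) * l) with hf
  have hanti : ∀ k, ∀ m, k + m ≤ K → 0 < m → f (k + m) < f k := by
    intro k m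
    induction m with
    | zero => intro _ h; omega
    | succ m ih =>
      intro hle _
      have s1 : f (k + (m + 1)) < f (k + m) := by
        have := hstep (k + m) (by omega)
        simpa [hf, Nat.add_assoc] using this
      rcases Nat.eq_zero_or_pos m with h0 | h0
      · subst h0; simpa using s1
      · exact s1.trans (ih (by omega) h0)
  have hinj : Set.InjOn f (range (K + 1) : Set ℕ) := by
    intro k hk k' hk' hkk
    simp only [coe_range, Set.mem_Iio] at hk hk'
    rcases lt_trichotomy k k' with h | h | h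
    · have := hanti k (k' - k) (by omega) (by omega)
      rw [Nat.add_sub_cancel' h.le] at this
      omega
    · exact h
    · have := hanti k' (k - k') (by omega) (by omega)
      rw [Nat.add_sub_cancel' h.le] at this
      omega
  -- the points
  have hpt : ∀ k ≤ K, f k < κ y ∧ 0 < va μ R κ x (f k) y ∧ k * l ≤ J - ac R κ x (f k) := by
    intro k hk
    have e1 := hKl k hk
    have e2 : (k + 2) * l = k * l + l + l := by ring
    have e2' : (k + 1) * l = k * l + l := by ring
    have hs := hstep k hk
    have hs0 := hstep0 k hk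
    -- ac > z - l
    have c1 : J - (k + 2) * l < ac R κ x (f k) := by
      rw [← (a1 (f k) (J - (k + 2) * l) (by omega)).2]
      simp only [aa, hf]
      split_ifs <;> omega
    -- sc ≤ z + l
    have c2 : sc R κ (f k) ≤ J - k * l := by
      by_contra hc
      push Not at hc
      have := (a1 (f k) (J - k * l) (by omega)).1.2 hc
      simp only [hf] at this
      omega
    have c3 := a3 (f k)
    have c4 : f k < κ y := by
      by_contra hc
      push Not at hc
      have := (a1 (f k) y hyR').1.1 hc
      omega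
    refine ⟨c4, ?_, by omega⟩
    rw [(a6 y hyR' (f k) c4).2.2.2]
    omega
  have hsum : ∑ k ∈ range (K + 1), T (k * l) ≤ Dd μ R κ x y := by
    calc ∑ k ∈ range (K + 1), T (k * l) ≤ ∑ k ∈ range (K + 1), T (J - ac R κ x (f k)) := by
          refine sum_le_sum fun k hk => T_mono ?_
          exact (hpt k (by simpa [Nat.lt_succ_iff] using hk)).2.2
      _ = ∑ c ∈ (range (K + 1)).image f, T (J - ac R κ x c) := by
          rw [sum_image hinj]
      _ ≤ Dd μ R κ x y := by
          unfold Dd
          apply sum_le_sum_of_subset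
          intro c hc
          obtain ⟨k, hk, rfl⟩ := mem_image.1 hc
          have := hpt k (by simpa [Nat.lt_succ_iff] using hk)
          simp only [mem_filter, mem_range]
          exact ⟨this.1, this.2.1⟩
  have hsq := sum_sq l K
  rw [← mul_sum] at hsq
  have h12 : l ^ 2 * (K * (K + 1) * (2 * K + 1)) ≤ 12 * Dd μ R κ x y :=
    hsq.trans (Nat.mul_le_mul_left 12 hsum)
  have hpoly : (K + 3) ^ 3 ≤ K * (K + 1) * (2 * K + 1) := by
    obtain ⟨m, hm⟩ := Nat.exists_eq_add_of_le hK12
    rw [hm]
    ring_nf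
    nlinarith [sq_nonneg m, Nat.zero_le m, Nat.zero_le (m ^ 3)]
  calc w ^ 3 ≤ ((K + 3) * l) ^ 3 := Nat.pow_le_pow_left hwlt.le 3
    _ = l ^ 3 * (K + 3) ^ 3 := by ring
    _ ≤ l ^ 3 * (K * (K + 1) * (2 * K + 1)) := Nat.mul_le_mul_left _ hpoly
    _ = l * (l ^ 2 * (K * (K + 1) * (2 * K + 1))) := by ring
    _ ≤ l * (12 * Dd μ R κ x y) := Nat.mul_le_mul_left _ h12
    _ = 12 * l * Dd μ R κ x y := by ring

end Pool.Agent.Helper43.Hw.PkH7
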